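import Pool.Agent.H84.NT.Targets5

/-!
# Modules DAC and ING
-/

set_option autoImplicit false

open MeasureTheory ProbabilityTheory
open scoped ENNReal

namespace Pool.Agent.H84.NT5

open Pool.Agent.H99.NS Pool.Agent.H22.LPP Pool.Agent.H95.INS Pool.Agent.H76.ND Pool.Agent.H95.ND
open Pool.Agent.H84.NT hiding lv two_lv

theorem pf_DAC : T_DAC := by
  intro q hq0 hq1
  have hs := sg_pos hq0 hq1
  set s := sg q with hsd
  set c : ℝ := 10 ^ 5 * (1 + 1 / s) with hc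
  have hc0 : 10 ^ 5 ≤ c := by
    rw [hc]
    have : 0 < 1 / s := by positivity
    linarith
  have hcs : 10 ^ 5 ≤ c * s := by
    rw [hc]
    have : 10 ^ 5 * (1 + 1 / s) * s = 10 ^ 5 * (s + 1) := by field_simp
    rw [this]
    linarith
  refine ⟨2 * c + 2, by linarith, ?_⟩
  intro κ hκ hsκ
  have hκ0 : 0 < κ := by linarith
  have hceil : c * κ ≤ (⌈c * κ⌉ : ℤ) := Int.le_ceil _
  have hceil2 : ((⌈c * κ⌉ : ℤ) : ℝ) < c * κ + 1 := Int.ceil_lt_add_one _
  refine ⟨2 * ⌈c * κ⌉, even_two_mul _, ?_, ?_, ?_⟩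
  · push_cast
    nlinarith
  · push_cast
    nlinarith
  · intro a X ha hX1 hX2
    set A : ℤ := 2 * ⌈c * κ⌉ with hA
    have hAr : (A : ℝ) = 2 * (⌈c * κ⌉ : ℤ) := by rw [hA]; push_cast; ring
    have hA1 : 2 * (c * κ) ≤ (A : ℝ) := by rw [hAr]; linarith
    have hA2 : 2 * 10 ^ 5 * κ ≤ (A : ℝ) := by nlinarith
    have hsA : 2 * 10 ^ 5 * κ ≤ s * A := by
      calc 2 * 10 ^ 5 * κ ≤ 2 * (c * s) * κ := by nlinarith
        _ = s * (2 * (c * κ)) := by ring
        _ ≤ s * A := mul_le_mul_of_nonneg_left hA1 hs.le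
    have hA0 : (0 : ℝ) < A := by nlinarith
    obtain ⟨n, rfl⟩ : ∃ n, a = n + 1 := ⟨a - 1, by omega⟩
    have e1 : (n + 1 - 1 : ℕ) = n := rfl
    refine ⟨hq0, hq1, ?_, ?_, ?_, ?_, ?_, ?_, ?_, ?_, ?_, ?_, ?_, ?_, ?_, ?_, ?_, ?_⟩
    · show (1 : ℤ) ≤ 8 * 64 ^ n
      have : (1 : ℤ) ≤ 64 ^ n := one_le_pow₀ (by norm_num)
      omega
    · show Even (8 * 64 ^ n : ℤ)
      exact Even.mul_right (by decide) _
    · show (1 : ℤ) ≤ 16 ^ (n + 1)
      exact one_le_pow₀ (by norm_num)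
    · show (0 : ℝ) < 4 ^ (n + 1)
      positivity
    · show (((16 ^ (n + 1) : ℤ)) : ℝ) ^ 2 = 8 * ((8 * 64 ^ n : ℤ) : ℝ) * 4 ^ (n + 1)
      push_cast
      have : (16 : ℝ) ^ n * 16 ^ n = 64 ^ n * 4 ^ n := by
        rw [← mul_pow, ← mul_pow]; norm_num
      rw [pow_succ, pow_succ (4 : ℝ)]
      linear_combination 256 * this
    · show (2 : ℤ) ≤ A
      have : (2 : ℝ) ≤ A := by nlinarith
      exact_mod_cast this
    · exact even_two_mul _
    · exact hκ0.le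
    · exact hκ0.le
    · show κ ≤ (A : ℝ)
      nlinarith
    · show 70 * s + 3 * κ * (1 + κ) + s * κ ^ 2 ≤ s * (A : ℝ) ^ 2 / 4 / 1000
      have h1 : 4 * 10 ^ 10 * κ ^ 2 ≤ s * (A : ℝ) ^ 2 := by
        calc 4 * 10 ^ 10 * κ ^ 2 = (2 * 10 ^ 5 * κ) * (2 * 10 ^ 5 * κ) := by ring
          _ ≤ (s * A) * A := mul_le_mul hsA hA2 (by positivity) (by positivity)
          _ = s * (A : ℝ) ^ 2 := by ring
      have h2 : s * (4 * 10 ^ 10 * κ ^ 2) ≤ s * (A : ℝ) ^ 2 := by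
        apply mul_le_mul_of_nonneg_left _ hs.le
        calc 4 * 10 ^ 10 * κ ^ 2 = (2 * 10 ^ 5 * κ) * (2 * 10 ^ 5 * κ) := by ring
          _ ≤ (A : ℝ) * (A : ℝ) := mul_le_mul hA2 hA2 (by positivity) (by positivity)
          _ = (A : ℝ) ^ 2 := by ring
      have h3 : κ ≤ κ ^ 2 := by nlinarith
      have h4 : s ≤ s * κ ^ 2 := by nlinarith
      nlinarith
    · show κ * (1 + 16 * (A : ℝ)) ≤ s * (A : ℝ) ^ 2 / 4 / 1000
      have h1 : 2 * 10 ^ 5 * κ * A ≤ s * A * A := mul_le_mul_of_nonneg_right hsA hA0.le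
      have h2 : κ ≤ κ * A := by
        have : (1 : ℝ) ≤ A := by nlinarith
        nlinarith
      nlinarith
    · exact le_rfl
    · show 4 * (s * (A : ℝ) ^ 2 / 4) ≤ s * (A : ℝ) ^ 2
      linarith
    · exact hX1
    · show X + A * 16 ^ (n + 1) ≤ 256 * (8 * 64 ^ n)
      refine hX2.trans (le_of_eq ?_)
      rw [pow_succ]
      ring

theorem pf_ING : T_ING := by
  intro q CG hG p s0 b n xc V hV
  have h16 : (0 : ℤ) < 16 ^ b := by positivity
  have h64 : (0 : ℤ) < 64 ^ (b + 1) := by positivity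
  refine ⟨?_, ?_, ?_⟩
  · set i1 : ℤ := (xc - V - p) / 16 ^ b with hi1
    set i2 : ℤ := (xc + V - p) / 16 ^ b with hi2
    have hsub : {ω | InG q CG p s0 b n xc V ω} ⊆ ⋃ i0 ∈ Finset.Icc i1 i2,
        {ω | ∃ g, IsPath s0 (s0 + n * 64 ^ (b + 1)) g ∧ wi p b (g s0) = i0 ∧
          CG * n ≤ GRs q p s0 b n ω g} := by
      rintro ω ⟨g, h1, h2, h3⟩
      have h4 := abs_le.1 (h2 s0 le_rfl (by nlinarith [Int.natCast_nonneg n]))
      simp only [Set.mem_iUnion]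
      refine ⟨wi p b (g s0), Finset.mem_Icc.2 ⟨?_, ?_⟩, g, h1, rfl, h3⟩
      · exact Int.ediv_le_ediv h16 (by omega)
      · exact Int.ediv_le_ediv h16 (by omega)
    have hcard : ((Finset.Icc i1 i2).card : ℝ) ≤ 2 * V / 16 ^ b + 3 := by
      have h1 : (i2 : ℝ) ≤ (xc + V - p) / 16 ^ b := by
        rw [le_div_iff₀ (by positivity)]
        have : i2 * 16 ^ b ≤ xc + V - p := Int.ediv_mul_le _ h16.ne'
        exact_mod_cast this
      have h2 : ((xc : ℝ) - V - p) / 16 ^ b < i1 + 1 := by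
        rw [div_lt_iff₀ (by positivity)]
        have : xc - V - p < (i1 + 1) * 16 ^ b := Int.lt_ediv_add_one_mul_self _ h16
        exact_mod_cast this
      have h3 : ((xc : ℝ) + V - p) / 16 ^ b = (xc - V - p) / 16 ^ b + 2 * V / 16 ^ b := by
        rw [← add_div]; congr 1; ring
      have h4 : (0 : ℝ) ≤ 2 * V / 16 ^ b := by
        have : (0 : ℝ) ≤ V := by exact_mod_cast hV
        positivity
      rw [Int.card_Icc]
      rcases le_total 0 (i2 + 1 - i1) with h5 | h5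
      · have h6 : (((i2 + 1 - i1).toNat : ℕ) : ℝ) = ((i2 + 1 - i1 : ℤ) : ℝ) := by
          rw [← Int.cast_natCast, Int.toNat_of_nonneg h5]
        rw [h6]
        push_cast
        linarith
      · rw [Int.toNat_of_nonpos h5]
        push_cast
        linarith
    calc (PE q).real {ω | InG q CG p s0 b n xc V ω}
        ≤ (PE q).real (⋃ i0 ∈ Finset.Icc i1 i2,
        {ω | ∃ g, IsPath s0 (s0 + n * 64 ^ (b + 1)) g ∧ wi p b (g s0) = i0 ∧
          CG * n ≤ GRs q p s0 b n ω g}) := measureReal_mono hsub (measure_ne_top _ _)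
      _ ≤ ∑ i0 ∈ Finset.Icc i1 i2, (PE q).real {ω | ∃ g, IsPath s0 (s0 + n * 64 ^ (b + 1)) g ∧
          wi p b (g s0) = i0 ∧ CG * n ≤ GRs q p s0 b n ω g} := measureReal_biUnion_finset_le _ _
      _ ≤ ∑ _i0 ∈ Finset.Icc i1 i2, Real.exp (-(n : ℝ)) :=
          Finset.sum_le_sum fun i0 _ => hG p s0 i0 b n
      _ = ((Finset.Icc i1 i2).card : ℝ) * Real.exp (-(n : ℝ)) := by
          rw [Finset.sum_const, nsmul_eq_mul]
      _ ≤ _ := mul_le_mul_of_nonneg_right hcard (Real.exp_pos _).le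
  · have key : ∀ ω ω' : Env, (∀ x ∈ {x : Site | s0 < x.1 ∧ x.1 ≤ s0 + n * 64 ^ (b + 1) ∧
        |x.2 - xc| ≤ V}, ω x = ω' x) → InG q CG p s0 b n xc V ω → InG q CG p s0 b n xc V ω' := by
      rintro ω ω' h ⟨g, h1, h2, h3⟩
      refine ⟨g, h1, h2, h3.trans (le_of_eq ?_)⟩
      unfold GRs
      apply Finset.sum_congr rfl
      intro l hl
      have hln : ((l : ℤ) + 1) * 64 ^ (b + 1) ≤ n * 64 ^ (b + 1) := by
        apply mul_le_mul_of_nonneg_right _ h64.le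
        have := Finset.mem_range.1 hl
        omega
      have hw : wt ω (sb s0 b l) (sb s0 b l + 64 ^ (b + 1)) g =
          wt ω' (sb s0 b l) (sb s0 b l + 64 ^ (b + 1)) g := by
        apply wt_congr
        intro r hr1 hr2
        have hl0 : (0 : ℤ) ≤ l * 64 ^ (b + 1) := by positivity
        have hr3 : s0 < r := by unfold sb at hr1; omega
        have hr4 : r ≤ s0 + n * 64 ^ (b + 1) := by
          unfold sb at hr2
          have : ((l : ℤ) + 1) * 64 ^ (b + 1) = l * 64 ^ (b + 1) + 64 ^ (b + 1) := by ring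
          omega
        exact h (r, g r) ⟨hr3, hr4, h2 r hr3.le hr4⟩
      unfold exl
      rw [hw]
    intro ω ω' h
    apply propext
    exact ⟨key ω ω' h, key ω' ω fun x hx => (h x hx).symm⟩
  · refine Set.Finite.subset (Finset.finite_toSet
      (Finset.Icc s0 (s0 + n * 64 ^ (b + 1)) ×ˢ Finset.Icc (xc - V) (xc + V))) ?_
    rintro x ⟨h1, h2, h3⟩
    have h4 := abs_le.1 h3
    rw [Finset.coe_product, Set.mem_prod]
    exact ⟨Finset.mem_coe.2 (Finset.mem_Icc.2 ⟨h1.le, h2⟩),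
      Finset.mem_coe.2 (Finset.mem_Icc.2 ⟨by omega, by omega⟩)⟩

end Pool.Agent.H84.NT5
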